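import Pool.Agent.H58.HN.TargetsT

/-!
# TN: the homotopy for the diagonal
-/

set_option autoImplicit false

noncomputable section

namespace Pool.Agent.H13.HN

open Classical
open scoped TensorProduct
open Pool.Agent.H58.HN

variable {P : Type} [PartialOrder P]

private theorem bd_e (s : Ch P) : bd (e s) = ∑ x ∈ s.1, sg s x • e (er s x) := by
  unfold bd e
  rw [Finsupp.linearCombination_single, one_smul]

private theorem bp_e (s : Ch P) : bp (e s) = if 2 ≤ s.1.card then bd (e s) else 0 := by
  unfold bp
  rw [e, Finsupp.linearCombination_single, one_smul]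
  rfl

private theorem om_e (s : Ch P) : om (e s) = (-1 : ℚ) ^ (s.1.card + 1) • e s := by
  unfold om
  rw [e, Finsupp.linearCombination_single, one_smul]
  rfl

private theorem AW_e (s : Ch P) : AW (e s) = ∑ x ∈ s.1, e (lo s x) ⊗ₜ[ℚ] e (hi s x) := by
  unfold AW
  rw [e, Finsupp.linearCombination_single, one_smul]

private theorem bd_pt (s : Ch P) (hs : s.1.card = 1) : bd (e s) = e nil := by
  obtain ⟨x, hx⟩ := Finset.card_eq_one.1 hs
  rw [bd_e, hx, Finset.sum_singleton]
  have h1 : sg s x = 1 := by
    unfold sg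
    have : s.1.filter (fun y => y < x) = ∅ := by
      rw [hx]
      ext y
      simp only [Finset.mem_filter, Finset.mem_singleton, Finset.notMem_empty, iff_false, not_and]
      rintro rfl
      exact lt_irrefl _
    rw [this]
    simp
  have h2 : er s x = nil := by
    apply Subtype.ext
    show s.1.erase x = ∅
    rw [hx]
    simp
  rw [h1, h2, one_smul]

/-- on combinations of chains with `k` elements the sign is constant -/
private theorem om_G (k : ℕ) (z : CG P) (hz : z ∈ G P k) : om z = (-1 : ℚ) ^ (k + 1) • z := by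
  have hz' : z ∈ Finsupp.supported ℚ ℚ {s : Ch P | s.1.card = k} := hz
  rw [Finsupp.supported_eq_span_single] at hz'
  induction hz' using Submodule.span_induction with
  | mem x hx =>
      obtain ⟨t, ht, rfl⟩ := hx
      have := om_e t
      have ht' : t.1.card = k := ht
      rw [e, ht'] at this
      exact this
  | zero => simp
  | add x y hx hy h1 h2 =>
      rw [map_add, smul_add]
      have hx' : x ∈ G P k := by
        show x ∈ Finsupp.supported ℚ ℚ {s : Ch P | s.1.card = k}
        rw [Finsupp.supported_eq_span_single]; exact hx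
      have hy' : y ∈ G P k := by
        show y ∈ Finsupp.supported ℚ ℚ {s : Ch P | s.1.card = k}
        rw [Finsupp.supported_eq_span_single]; exact hy
      rw [h1 hx', h2 hy']
  | smul a x hx h1 =>
      have hx' : x ∈ G P k := by
        show x ∈ Finsupp.supported ℚ ℚ {s : Ch P | s.1.card = k}
        rw [Finsupp.supported_eq_span_single]; exact hx
      rw [map_smul, h1 hx', smul_comm]

private theorem bp_G (k : ℕ) (hk : 2 ≤ k) (z : CG P) (hz : z ∈ G P k) : bp z = bd z := by
  have hz' : z ∈ Finsupp.supported ℚ ℚ {s : Ch P | s.1.card = k} := hz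
  rw [Finsupp.supported_eq_span_single] at hz'
  have key : Set.EqOn (bp : CG P →ₗ[ℚ] CG P) (bd : CG P →ₗ[ℚ] CG P)
      ((fun i : Ch P => Finsupp.single i (1 : ℚ)) '' {s : Ch P | s.1.card = k}) := by
    rintro _ ⟨t, ht, rfl⟩
    have ht' : t.1.card = k := ht
    have := bp_e t
    rw [if_pos (by omega)] at this
    exact this
  exact LinearMap.eqOn_span key hz'

private theorem D2_tmul (a b : CG P) :
    D2 (a ⊗ₜ[ℚ] b) = bp a ⊗ₜ[ℚ] b + om a ⊗ₜ[ℚ] bp b := by
  unfold D2
  rw [LinearMap.add_apply, TensorProduct.map_tmul, TensorProduct.map_tmul, LinearMap.id_apply]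

/-- the contribution of one element -/
private theorem term {n : ℕ} (σ : CG P →ₗ[ℚ] CG P) (hn : 2 ≤ n) (hσ : Con P n σ)
    (s : Ch P) (m : P) (hs : s.1.card = n) (hm : m ∈ s.1) (hmax : ∀ y ∈ s.1, y ≤ m)
    (x0 : P) (hx0 : x0 ∈ s.1) (hmin : ∀ y ∈ s.1, x0 ≤ y) (x : P) (hx : x ∈ s.1) :
    D2 (TensorProduct.map σ LinearMap.id (e (lo s x) ⊗ₜ[ℚ] e (hi s x))) +
      TensorProduct.map σ LinearMap.id (D2 (e (lo s x) ⊗ₜ[ℚ] e (hi s x))) =
    e (lo s x) ⊗ₜ[ℚ] e (hi s x) - (if x0 = x then σ (e nil) ⊗ₜ[ℚ] e s else 0) -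
      (if m = x then (e s - σ (bd (e s))) ⊗ₜ[ℚ] e (pt m) else 0) := by
  have hlosub : (lo s x).1 ⊆ s.1 := Finset.filter_subset _ _
  have hlole : (lo s x).1.card ≤ n := hs ▸ Finset.card_le_card hlosub
  have hxlo : x ∈ (lo s x).1 := Finset.mem_filter.2 ⟨hx, le_refl _⟩
  have hx0lo : x0 ∈ (lo s x).1 := Finset.mem_filter.2 ⟨hx0, hmin x hx⟩
  have hpos : 1 ≤ (lo s x).1.card := Finset.card_pos.2 ⟨x, hxlo⟩
  have hm0 : x0 ≠ m := by
    rintro rfl
    have : s.1 ⊆ {x0} := by
      intro y hy
      rw [Finset.mem_singleton]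
      exact le_antisymm (hmax y hy) (hmin y hy)
    have := Finset.card_le_card this
    rw [Finset.card_singleton] at this
    omega
  rw [TensorProduct.map_tmul, LinearMap.id_apply, D2_tmul, D2_tmul, map_add,
    TensorProduct.map_tmul, TensorProduct.map_tmul, LinearMap.id_apply, LinearMap.id_apply]
  by_cases hxm : m = x
  · -- the maximum
    subst hxm
    rw [if_neg hm0, if_pos rfl]
    have hlo : lo s m = s := by
      apply Subtype.ext
      exact Finset.filter_true_of_mem hmax
    have hhi : hi s m = pt m := by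
      apply Subtype.ext
      show s.1.filter (fun y => m ≤ y) = {m}
      ext y
      rw [Finset.mem_filter, Finset.mem_singleton]
      constructor
      · rintro ⟨h1, h2⟩
        exact le_antisymm (hmax y h1) h2
      · rintro rfl
        exact ⟨hm, le_refl _⟩
    rw [hlo, hhi, hσ.zero s (by omega), map_zero, map_zero, om_e, map_smul,
      hσ.zero s (by omega), smul_zero, bp_e s, if_pos (by omega)]
    simp only [TensorProduct.zero_tmul, add_zero, zero_add, sub_zero]
    rw [TensorProduct.sub_tmul]
    abel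
  · -- the others
    rw [if_neg hxm]
    have hlt : (lo s x).1.card < n := by
      rcases lt_or_eq_of_le hlole with h | h
      · exact h
      · exfalso
        have : (lo s x).1 = s.1 := Finset.eq_of_subset_of_card_le hlosub (by omega)
        have hmlo : m ∈ (lo s x).1 := by rw [this]; exact hm
        exact hxm (le_antisymm (Finset.mem_filter.1 hmlo).2 (hmax x hx))
    have hdeg := hσ.deg (lo s x) hlt
    have hhom := hσ.hom (lo s x) hlt
    rw [om_G _ _ hdeg, om_e, map_smul, bp_G _ (by omega) _ hdeg]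
    have hsign : (-1 : ℚ) ^ ((lo s x).1.card + 1 + 1) • σ (e (lo s x)) =
        -((-1 : ℚ) ^ ((lo s x).1.card + 1) • σ (e (lo s x))) := by
      rw [pow_succ (-1 : ℚ) ((lo s x).1.card + 1), mul_neg_one, neg_smul]
    rw [hsign, TensorProduct.neg_tmul]
    by_cases hx0x : x0 = x
    · rw [if_pos hx0x]
      subst hx0x
      have hlo1 : (lo s x0).1.card = 1 := by
        rw [Finset.card_eq_one]
        refine ⟨x0, ?_⟩
        ext y
        rw [Finset.mem_singleton]
        constructor
        · intro hy
          have := Finset.mem_filter.1 hy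
          exact le_antisymm this.2 (hmin y this.1)
        · rintro rfl
          exact hxlo
      have hhi : hi s x0 = s := by
        apply Subtype.ext
        exact Finset.filter_true_of_mem hmin
      rw [bp_e (lo s x0), if_neg (by omega), map_zero, TensorProduct.zero_tmul, hhi]
      rw [bd_pt _ hlo1] at hhom
      have h2 : bd (σ (e (lo s x0))) = e (lo s x0) - σ (e nil) := eq_sub_of_add_eq hhom
      rw [h2, TensorProduct.sub_tmul]
      abel
    · rw [if_neg hx0x]
      have h2 : 2 ≤ (lo s x).1.card := by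
        have : ({x0, x} : Finset P) ⊆ (lo s x).1 := by
          intro y hy
          rw [Finset.mem_insert, Finset.mem_singleton] at hy
          rcases hy with rfl | rfl
          · exact hx0lo
          · exact hxlo
        have := Finset.card_le_card this
        rwa [Finset.card_pair hx0x] at this
      rw [bp_e (lo s x), if_pos h2]
      have h3 : e (lo s x) ⊗ₜ[ℚ] e (hi s x) = bd (σ (e (lo s x))) ⊗ₜ[ℚ] e (hi s x) +
          σ (bd (e (lo s x))) ⊗ₜ[ℚ] e (hi s x) := by
        rw [← TensorProduct.add_tmul, hhom]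
      rw [h3]
      abel

private theorem exists_min (s : Ch P) (h : s.1.Nonempty) :
    ∃ x0 ∈ s.1, ∀ y ∈ s.1, x0 ≤ y := by
  obtain ⟨x0, hx0⟩ := s.1.exists_minimal h
  refine ⟨x0, hx0.1, fun y hy => ?_⟩
  by_cases hxy : x0 = y
  · exact hxy.le
  rcases s.2 (Finset.mem_coe.2 hx0.1) (Finset.mem_coe.2 hy) hxy with h1 | h1
  · exact h1
  · exact hx0.2 hy h1

/-- TN: the homotopy for the diagonal -/
theorem pf_TN (hJ : T_TJ) : T_TN := by
  intro P _ n σ hn hσ s m hs hm hmax
  obtain ⟨x0, hx0, hmin⟩ := exists_min s ⟨m, hm⟩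
  rw [← hJ P (e s), AW_e, map_sum, map_sum, map_sum, map_sum, ← Finset.sum_add_distrib]
  rw [Finset.sum_congr rfl (fun x hx => term σ hn hσ s m hs hm hmax x0 hx0 hmin x hx)]
  rw [Finset.sum_sub_distrib, Finset.sum_sub_distrib, Finset.sum_ite_eq, Finset.sum_ite_eq,
    if_pos hx0, if_pos hm]

end Pool.Agent.H13.HN
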